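import Pool.Agent.MQG.StmtsA

set_option autoImplicit false

/-! # Squad MQG, module YID -/

namespace Pool.Agent.MQG

namespace H56

open scoped InnerProductSpace InnerProduct Topology ComplexConjugate
open Complex Filter

theorem yop_apply {ι κ : Type} (M : MU ι) (U : Op (κ × ι)) (v : L2 (κ × ι × ι)) :
    Yop M U (l23 (cj M.Wt) v) = star (l12 U) (l23 (cj M.Wt) (l12 U v)) := by
  have h1 : (l23 (cj M.Wt) : Op (κ × ι × ι)) ∈ unitary (Op (κ × ι × ι)) :=
    l23_unitary (cj_unitary M.Wt_unitary)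
  have h2 : star (l23 (cj M.Wt) : Op (κ × ι × ι)) * l23 (cj M.Wt) = 1 :=
    (Unitary.mem_iff.1 h1).1
  have h3 : Yop M U * l23 (cj M.Wt) = star (l12 U) * l23 (cj M.Wt) * l12 U := by
    unfold Yop
    rw [mul_assoc, h2, mul_one]
  have h4 := DFunLike.congr_fun h3 v
  exact h4

theorem adapted_star {ι κ : Type} {W : Op (ι × ι)} {U : Op (κ × ι)} (h : Adapted W U)
    (v : L2 (κ × ι × ι)) :
    star (l12 U : Op (κ × ι × ι)) (star (l23 W) (l12 U v)) = star (l23 W) (star (l13 U) v) := by
  have h1 : (l12 U : Op (κ × ι × ι)) ∈ unitary (Op (κ × ι × ι)) := l12_unitary h.unit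
  have h2 : star (l12 U : Op (κ × ι × ι)) * l12 U = 1 := (Unitary.mem_iff.1 h1).1
  have h3 : star (l12 U : Op (κ × ι × ι)) * star (l23 W) * l12 U =
      star (l23 W) * star (l13 U) := by
    have h4 := congrArg star h.eq
    simp only [star_mul] at h4
    rw [← h4, mul_assoc, mul_assoc, h2, mul_one]
  have h5 := DFunLike.congr_fun h3 v
  exact h5

theorem yid (hHaw : HawStmt) : YidStmt := by
  intro ι M κ U hU x z h h' f g hf hg
  rw [yop_apply, ContinuousLinearMap.star_eq_adjoint (l12 U),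
    ContinuousLinearMap.adjoint_inner_right, l12_tn, l12_tn,
    (hHaw ι M).front hf hg, ← l12_tn, ← l12_tn, ← ContinuousLinearMap.adjoint_inner_right,
    ← ContinuousLinearMap.star_eq_adjoint, adapted_star hU]

end H56

end Pool.Agent.MQG
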