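import Pool.Agent.MQG.StmtsA

set_option autoImplicit false

/-! # Squad MQG, module YLI -/

namespace Pool.Agent.MQG

namespace H56

open scoped InnerProductSpace InnerProduct Topology ComplexConjugate
open Complex Filter

/-- The image of a total set under a surjective bounded operator is total. -/
theorem total_image {E F : Type*} [NormedAddCommGroup E] [NormedSpace ℂ E]
    [NormedAddCommGroup F] [NormedSpace ℂ F] {X : Set E} (h : Total X) (T : E →L[ℂ] F)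
    (hT : Function.Surjective T) : Total {y : F | ∃ x ∈ X, y = T x} := by
  intro v
  obtain ⟨u, rfl⟩ := hT v
  have h1 : T u ∈ closure (T '' (Submodule.span ℂ X : Set E)) :=
    image_closure_subset_closure_image T.continuous ⟨u, h u, rfl⟩
  refine closure_mono ?_ h1
  rintro _ ⟨w, hw, rfl⟩
  change T w ∈ Submodule.span ℂ {y : F | ∃ x ∈ X, y = T x}
  induction hw using Submodule.span_induction with
  | mem x hx => exact Submodule.subset_span ⟨x, hx, rfl⟩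
  | zero => simp
  | add x y _ _ hx hy => rw [map_add]; exact Submodule.add_mem _ hx hy
  | smul r x _ hx => rw [map_smul]; exact Submodule.smul_mem _ _ hx

theorem conj_I2 : conj (I / 2) = -(I / 2) := by
  rw [map_div₀, conj_I, map_ofNat, neg_div]

theorem conj_neg_I2 : conj (-(I / 2)) = I / 2 := by
  rw [map_neg, conj_I2, neg_neg]

theorem comm_apply {ι : Type} (M : MU ι) (hCom : ComStmt) (t : ℝ) (ξ : L2 (ι × ι)) :
    cj M.Wt (tens (M.V t) (cj (M.V t)) ξ) = tens (M.V t) (cj (M.V t)) (cj M.Wt ξ) :=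
  DFunLike.congr_fun (hCom ι M t).2 ξ

theorem traj_hat {ι : Type} (M : MU ι) (hCom : ComStmt) {m g : ℂ → L2 ι} (hm : Traj M.V m)
    (hg : Traj M.V g) :
    Traj (fun t => tens (M.V t) (cj (M.V t)))
      fun w => cj M.Wt (tn (m w) (star (g (conj w)))) :=
  Traj.map (T := cj M.Wt) (fun t ξ => comm_apply M hCom t ξ) (hm.tn hg.cj)

/-- Step (2). -/
theorem step2 {ι : Type} (M : MU ι) (hCom : ComStmt) (hHaw : HawStmt) {k m g : ℂ → L2 ι}
    (hk : Traj M.V k) (hm : Traj M.V m) (hg : Traj M.V g) (p : L2 ι) :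
    ⟪tn (k 0) (g (-(I / 2))), star M.W (tn (m 0) p)⟫_ℂ =
      ⟪tn (k (-(I / 2))) (star p), cj M.Wt (tn (m (I / 2)) (star (g (conj (I / 2)))))⟫_ℂ := by
  set ζ : L2 (ι × ι) := cj M.Wt (tn (m (I / 2)) (star (g (conj (I / 2))))) with hζ
  have hD : IsGroup fun t => tens (M.V t) (cj (M.V t)) := M.V_group.tens M.V_group.cj
  let S : L2 ι →L[ℂ] ℂ := (innerSL ℂ (tn (k 0) (g (-(I / 2))))) ∘L (star M.W) ∘L
    emb' (Equiv.refl (ι × ι)) (m 0)
  let T : L2 ι →L[ℂ] ℂ := (bil (α := ι)).flip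
    (((emb' (Equiv.refl (ι × ι)) (k (-(I / 2))))†) ζ)
  have hS : ∀ q, S q = ⟪tn (k 0) (g (-(I / 2))), star M.W (tn (m 0) q)⟫_ℂ := fun q => rfl
  have hT : ∀ q, T q = ⟪tn (k (-(I / 2))) (star q), ζ⟫_ℂ := fun q => by
    change ⟪star q, ((emb' (Equiv.refl (ι × ι)) (k (-(I / 2))))†) ζ⟫_ℂ = _
    rw [inner_emb'_adj]
    rfl
  have hST : S = T := by
    refine (total_traj M.V_group 0).ext ?_
    rintro _ ⟨c, hc, rfl⟩
    rw [hS, hT]
    have h1 := hHaw ι M (k 0) (m 0) (fun w => c (w + -(I / 2))) g (hc.shift M.V_group _) hg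
    simp only [zero_add, add_neg_cancel] at h1
    rw [← h1]
    have hΞ : Traj (fun t => tens (M.V t) (cj (M.V t)))
        fun w => tn (k (w + -(I / 2))) (star (c (conj w))) :=
      (hk.shift M.V_group (-(I / 2))).tn hc.cj
    have hZ := traj_hat M hCom hm hg
    have h2 := Traj.inner_shift hD hΞ hZ 0 (I / 2) 0
    simp only [zero_add, add_neg_cancel, conj_I2, map_zero, zero_sub, neg_neg] at h2
    rw [h2, hζ, conj_I2]
  rw [← hS, hST, hT]

theorem yli (hCom : ComStmt) (hHaw : HawStmt) (hYid : YidStmt) : YliStmt := by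
  intro ι M κ U hU x z k k' f v hk hk' hf hv
  have hD : IsGroup fun t => tens (M.V t) (cj (M.V t)) := M.V_group.tens M.V_group.cj
  set p : L2 ι := ((emb' (Equiv.refl (κ × ι)) x)†) (star U (tn z (f (I / 2)))) with hp
  have hpi : ∀ y, ⟪y, p⟫_ℂ = ⟪tn x y, star U (tn z (f (I / 2)))⟫_ℂ := fun y => by
    rw [hp, inner_emb'_adj]
    rfl
  let F₁ : L2 (ι × ι) →L[ℂ] ℂ := (innerSL ℂ (tn x (tn (k 0) (star (f 0))))) ∘L (Yop M U) ∘L
    emb' (Equiv.refl (κ × ι × ι)) z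
  let F₂ : L2 (ι × ι) →L[ℂ] ℂ := innerSL ℂ (tn (k (-(I / 2))) (star p))
  have hF₁ : ∀ ζ, F₁ ζ = ⟪tn x (tn (k 0) (star (f 0))), Yop M U (tn z ζ)⟫_ℂ := fun ζ => rfl
  have hF₂ : ∀ ζ, F₂ ζ = ⟪tn (k (-(I / 2))) (star p), ζ⟫_ℂ := fun ζ => rfl
  let D : Set (ℂ → L2 (ι × ι)) := {Z | ∃ m g, Traj M.V m ∧ Traj M.V g ∧
    Z = fun w => cj M.Wt (tn (m w) (star (g (conj w))))}
  have hDt : ∀ Z ∈ D, Traj (fun t => tens (M.V t) (cj (M.V t))) Z := by
    rintro _ ⟨m, g, hm, hg, rfl⟩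
    exact traj_hat M hCom hm hg
  have hDs : ∀ Z ∈ D, ∀ t : ℝ, (fun z => Z (z + t)) ∈ D := by
    rintro _ ⟨m, g, hm, hg, rfl⟩ t
    refine ⟨fun w => m (w + t), fun w => g (w + t), hm.shift M.V_group _,
      hg.shift M.V_group _, ?_⟩
    funext w
    simp only [map_add, conj_ofReal]
  have hWu : (cj M.Wt : Op (ι × ι)) ∈ unitary (Op (ι × ι)) := cj_unitary M.Wt_unitary
  have hWs : Function.Surjective (cj M.Wt : Op (ι × ι)) := fun y =>
    ⟨star (cj M.Wt : Op (ι × ι)) y, DFunLike.congr_fun (Unitary.mem_iff.1 hWu).2 y⟩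
  have hDd : Total {ξ : L2 (ι × ι) | ∃ Z ∈ D, ξ = Z 0} := by
    refine (total_image (Total.tn (total_traj M.V_group 0)
      (total_star (total_traj M.V_group 0))) (cj M.Wt) hWs).mono ?_
    rintro _ ⟨_, ⟨_, ⟨m, hm, rfl⟩, _, ⟨_, ⟨g, hg, rfl⟩, rfl⟩, rfl⟩, rfl⟩
    refine ⟨_, ⟨m, g, hm, hg, rfl⟩, ?_⟩
    simp only [map_zero]
  have hDF : ∀ Z ∈ D, F₁ (Z 0) = F₂ (Z (I / 2)) := by
    rintro _ ⟨m, g, hm, hg, rfl⟩
    rw [hF₁, hF₂]
    simp only [map_zero]
    rw [← step2 M hCom hHaw hk hm hg p, ← l23_tn', hYid ι M κ U hU x z (k 0) (m 0) f g hf hg,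
      ContinuousLinearMap.star_eq_adjoint (l23 M.W), ContinuousLinearMap.adjoint_inner_right,
      l23_tn', ← l13_star, l13_tn, inner_tn_tl_e13, ← hp,
      ContinuousLinearMap.star_eq_adjoint M.W, ContinuousLinearMap.adjoint_inner_right]
  have hZ : Traj (fun t => tens (M.V t) (cj (M.V t))) fun w => tn (k' w) (star (v (conj w))) :=
    hk'.tn hv.cj
  have hmain := core hD hDt hDs hDd (I / 2) hDF hZ
  simp only [hF₁, hF₂, map_zero, conj_I2] at hmain
  rw [hmain, inner_tn, inner_star_star, hpi]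
  congr 1
  have h2 := Traj.inner_shift M.V_group hk hk' 0 (-(I / 2)) (I / 2)
  rwa [zero_add, conj_neg_I2, sub_self] at h2

end H56

end Pool.Agent.MQG
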